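import Pool.Agent.H363D.OmvD

/-!
# Matrix-vector products over a finite field on machines with a memory in `d`-dimensional space

The memory of the machine is the lattice `ℤ ^ d`. In every step each cell may read one entry of the
vectors, assume a new state and write one entry of the products. The rules are arbitrary, they may
depend on the time, on the position of the cell and on the matrix `M` (so the matrix and the results
of any preprocessing of it are free, as is all arithmetic inside the cells), except that a cell sees
only its neighbours, and that a blank cell with blank neighbours does nothing. At the beginning all
cells but one are blank. So this includes Turing machines with one head on a `d`-dimensional tape,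
meshes of processors, cellular automata and synchronous VLSI circuits. What is counted is the number
`W` of activations, that is, of the pairs `(t, v)` such that the cell `v` changes its state, reads,
or writes in the step `t`.

The theorem says that for almost all `n × n` matrices `M` over a finite field with `q` elements, the
products of `M` with `m` random vectors can be computed with probability at least `2 ^ (- π)` only
if `W * (log₂ |Γ| + log₂ T + π + log₂ q) ≥ c * n ^ (1 + 1 / (d + 1)) * m * log₂ q`. For `m = n` this
is of order `n ^ (2 + 1 / (d + 1))`, while there are only `n ^ 2` entries of the products.

Proof. Cut the space into cubes of side `ℓ` with `ℓ ^ (d + 1)` of order `n`, with a random shift, so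
that the number of activations next to a face is `O (W / ℓ)`. Cut the history of every cube into
windows with at most `n / 128` activations. A window is determined by the contents of the cube at its
beginning, the changes next to the cube and the entries that are read, and it outputs `K` right
entries with probability at most `q ^ (- K / 16)`; so it outputs `O (ℓ ^ d + x)` entries (up to
logarithms), where `x` is the number of the changes next to the cube.
-/

set_option autoImplicit false

namespace Pool.Agent.Results.MP_0f1f76_lc.SpatialMemory

open Pool.Agent.W896.MO (mv)
open Pool.Agent.H363D (Machine)

/-- For every `d` there is a constant `C` such that for all finite fields `F` and all `n`, all but a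
fraction of `2 ^ (- ⌊n / 4⌋)` of the `n × n` matrices `M` over `F` (those which are not in `Bad`) have
the following property. Let `P r` be machines with the states `Γ` and memory `ℤ ^ d`, such that with
probability at least `2 ^ (- π)` over a random `r` and a random `m`-tuple `v` of vectors the machine
`P r` computes all entries of the products of `M` with the vectors of `v`, in `T` steps with at most
`W` activations. Then
`(n m) ^ (d + 1) n (log₂ |F|) ^ (d + 1) ≤ C (W (log₂ |Γ| + log₂ T + π + log₂ |F|)) ^ (d + 1)`. -/
theorem result (d : ℕ) : ∃ C : ℝ, 0 < C ∧ ∀ (F : Type) [Field F] [Fintype F] (n : ℕ),
    ∃ Bad : Set (Fin n → Fin n → F),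
    Nat.card Bad * 2 ^ (n / 4) ≤ Fintype.card F ^ (n * n) ∧
    ∀ M, M ∉ Bad → ∀ (Γ : Type) [Fintype Γ] (m T W π : ℕ) (R : Type) [Fintype R] [Nonempty R]
      (P : R → Machine d (Fin m × Fin n) (Fin m × Fin n) F Γ),
      Nat.card R * Fintype.card F ^ (n * m) ≤ 2 ^ π *
        Nat.card {u : R × (Fin m × Fin n → F) // (P u.1).Computes u.2 (mv M u.2) T W} →
      ((n : ℝ) * m) ^ (d + 1) * n * Real.logb 2 (Fintype.card F) ^ (d + 1) ≤
        C * ((W : ℝ) * (Real.logb 2 (Fintype.card Γ) + Real.logb 2 T + π +
          Real.logb 2 (Fintype.card F))) ^ (d + 1) :=
  Pool.Agent.H363D.mv_space d

end Pool.Agent.Results.MP_0f1f76_lc.SpatialMemory
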